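import Mathlib

/-!
Definitions used in the statement of the final theorem (problem MP_4905b1_co): partitions,
Hall-Littlewood functions (Macdonald's symmetrisation formula), their expansion in power sums,
the plethystic substitution `p_r ↦ N/(1-q^r)`, and the two fermionic series.

Throughout, the variable `X` of `ℚ⟦X⟧` stands for `q^{1/2}`, so that `q = X ^ 2`.
-/

open Finset

namespace MP4905.St

/-! ### partitions -/

/-- A partition `λ_1 ≥ λ_2 ≥ ⋯`, given as a weakly decreasing sequence of natural numbers with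
finite support; `l.part i` is the part `λ_{i+1}`. -/
structure Ptn where
  part : ℕ →₀ ℕ
  anti : Antitone (part : ℕ → ℕ)

/-- `|λ|`, the sum of the parts -/
def Ptn.size (l : Ptn) : ℕ := l.part.sum fun _ a => a

/-- `ℓ(λ)`, the number of nonzero parts -/
def Ptn.len (l : Ptn) : ℕ := l.part.support.card

/-- `m_i(λ)`, the number of parts equal to `i` (for `i ≥ 1`) -/
def Ptn.mult (l : Ptn) (i : ℕ) : ℕ := #{j ∈ l.part.support | l.part j = i}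

/-! ### Hall-Littlewood polynomials -/

section HL

variable {R : Type*} [CommRing R]

/-- `v_m(t) = ∏_{i=1}^m (1 - t^i)/(1 - t) = ∏_{i=1}^m (1 + t + ⋯ + t^{i-1})` -/
def tfac (t : R) (m : ℕ) : R := ∏ i ∈ range m, ∑ j ∈ range (i + 1), t ^ j

/-- `v_λ(t) = ∏_{i ≥ 0} v_{m_i}(t)`, where `m_i` is the number of `i`'s among `λ_1, …, λ_n` -/
def vlam (t : R) (n : ℕ) (l : Ptn) : R :=
  ∏ i ∈ range (l.part 0 + 1), tfac t #{j ∈ range n | l.part j = i}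

/-- `P` is the Hall-Littlewood polynomial `P_λ(x_1, …, x_n; t)`, i.e.
`P = (1 / v_λ(t)) ∑_{w ∈ S_n} w (x^λ ∏_{i<j} (x_i - t x_j) / (x_i - x_j))`,
with denominators cleared (multiply by `v_λ(t) ∏_{i<j} (x_i - x_j)`). -/
def IsHL (t : R) (n : ℕ) (l : Ptn) (P : MvPolynomial (Fin n) R) : Prop :=
  MvPolynomial.C (vlam t n l) *
      (∏ i : Fin n, ∏ j ∈ Ioi i, (MvPolynomial.X i - MvPolynomial.X j)) * P =
    ∑ w : Equiv.Perm (Fin n), ((Equiv.Perm.sign w : ℤˣ) : ℤ) •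
      MvPolynomial.rename w ((∏ i : Fin n, MvPolynomial.X i ^ l.part i) *
        ∏ i : Fin n, ∏ j ∈ Ioi i,
          (MvPolynomial.X i - MvPolynomial.C t * MvPolynomial.X j))

/-- `F` expresses the Hall-Littlewood functions with parameter `t` in the power sums
`p_1, p_2, …` (the variables of `MvPolynomial ℕ+ R`): substituting `p_r = x_1^r + ⋯ + x_n^r` in
`F λ` gives `P_λ(x_1, …, x_n; t)`, for all `n ≥ ℓ(λ)`. -/
def ExpressesHL (t : R) (F : Ptn → MvPolynomial ℕ+ R) : Prop :=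
  ∀ (l : Ptn) (n : ℕ), l.len ≤ n →
    IsHL t n l (MvPolynomial.aeval (fun r : ℕ+ => MvPolynomial.psum (Fin n) R r) (F l))

/-- `(a;b)_n = ∏_{j=0}^{n-1} (1 - a b^j)` -/
def poch (a b : R) (n : ℕ) : R := ∏ j ∈ range n, (1 - a * b ^ j)

end HL

/-! ### power series -/

open PowerSeries

/-- `(a;b)_∞` for a series `b` without constant term: its coefficient of `X^d` is that of
`(a;b)_{d+1}` (from `n = d + 1` on the coefficient of `X^d` in `(a;b)_n` does not change). -/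
noncomputable def pochInf (a b : ℚ⟦X⟧) : ℚ⟦X⟧ :=
  PowerSeries.mk fun d => coeff d (poch a b (d + 1))

/-- A family of power series is formally summable if for every `d` only finitely many members
have a nonzero coefficient of `X^d`. -/
def FSummable {ι : Type*} (a : ι → ℚ⟦X⟧) : Prop := ∀ d, {i | coeff d (a i) ≠ 0}.Finite

/-- the formal sum of a (formally summable) family -/
noncomputable def fsum {ι : Type*} (a : ι → ℚ⟦X⟧) : ℚ⟦X⟧ :=
  PowerSeries.mk fun d => ∑ᶠ i, coeff d (a i)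

/-- `P'_λ(1, …, 1; q)` with `N` ones, i.e. `P_λ` with `t = q` and `p_r ↦ N / (1 - q^r)` -/
noncomputable def Pprime (F : Ptn → MvPolynomial ℕ+ ℚ⟦X⟧) (N : ℕ) (l : Ptn) : ℚ⟦X⟧ :=
  MvPolynomial.eval (fun r : ℕ+ => (N : ℚ⟦X⟧) * (1 - (X ^ 2) ^ (r : ℕ))⁻¹) (F l)

/-- the summand `q^{|λ|/2} P'_λ(1,…,1;q) ∏_{i=1}^{m-1} (-q^{1/2};q^{1/2})_{m_i(λ)}` -/
noncomputable def Sterm (F : Ptn → MvPolynomial ℕ+ ℚ⟦X⟧) (m N : ℕ)
    (l : {l : Ptn // l.part 0 ≤ m}) : ℚ⟦X⟧ :=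
  X ^ l.1.size * Pprime F N l.1 * ∏ i ∈ Ico 1 m, poch (-X) X (l.1.mult i)

/-- the sum `∑_{λ : λ_1 ≤ m} q^{|λ|/2} P'_λ(1^N;q) ∏_{i=1}^{m-1} (-q^{1/2};q^{1/2})_{m_i(λ)}`,
where `N` is the number of ones (`S_{m,n}` of the problem is the case `N = 2n - 1`) -/
noncomputable def S (F : Ptn → MvPolynomial ℕ+ ℚ⟦X⟧) (m N : ℕ) : ℚ⟦X⟧ := fsum (Sterm F m N)

/-! ### the fermionic side -/

/-- the Cartan matrix of type `A_N` -/
def cartan {N : ℕ} (a b : Fin N) : ℤ :=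
  if a = b then 2 else if (a : ℕ) + 1 = b ∨ (b : ℕ) + 1 = a then -1 else 0

/-- `R_i^{(a)} = r_i^{(a)} + ⋯ + r_k^{(a)}` -/
def bigR {N k : ℕ} (r : Fin N → Fin k → ℕ) (a : Fin N) (i : Fin k) : ℕ := ∑ j ∈ Ici i, r a j

/-- `2 Q(r) = ∑_{a,b} ∑_i C_{ab} R_i^{(a)} R_i^{(b)}` -/
def twoQ {N k : ℕ} (r : Fin N → Fin k → ℕ) : ℤ :=
  ∑ a : Fin N, ∑ b : Fin N, ∑ i : Fin k, cartan a b * bigR r a i * bigR r b i

/-- `D(r) = ∏_a (∏_{i<k} (q;q)_{r_i^{(a)}}) (q²;q²)_{r_k^{(a)}}` -/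
noncomputable def Dr {N k : ℕ} (r : Fin N → Fin k → ℕ) : ℚ⟦X⟧ :=
  ∏ a : Fin N, ∏ i : Fin k,
    if (i : ℕ) + 1 = k then poch (X ^ 4) (X ^ 4) (r a i) else poch (X ^ 2) (X ^ 2) (r a i)

/-- the summand `q^{Q(r)} / D(r)` -/
noncomputable def Fterm {N k : ℕ} (r : Fin N → Fin k → ℕ) : ℚ⟦X⟧ :=
  X ^ (twoQ r).toNat * (Dr r)⁻¹

/-- `R_1^{(1)}` -/
def R11 {N k : ℕ} [NeZero N] [NeZero k] (r : Fin N → Fin k → ℕ) : ℕ := bigR r 0 0

/-- the summand `q^{Q(r)} (-q^{1/2-R};q)_R / D(r)` with `R = R_1^{(1)}`, written without negative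
powers as `q^{Q(r) - R²/2} (-q^{1/2};q)_R / D(r)`; see `GtermL`. -/
noncomputable def Gterm {N k : ℕ} [NeZero N] [NeZero k] (r : Fin N → Fin k → ℕ) : ℚ⟦X⟧ :=
  X ^ (twoQ r - (R11 r : ℤ) ^ 2).toNat * poch (-X) (X ^ 2) (R11 r) * (Dr r)⁻¹

/-- the summand `q^{Q(r)} (-q^{1/2-R};q)_R / D(r)`, `R = R_1^{(1)}`, as a Laurent series in
`T = q^{1/2}`, literally -/
noncomputable def GtermL {N k : ℕ} [NeZero N] [NeZero k] (r : Fin N → Fin k → ℕ) :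
    LaurentSeries ℚ :=
  let T : LaurentSeries ℚ := HahnSeries.single 1 1
  T ^ twoQ r * poch (-T ^ (1 - 2 * (R11 r : ℤ))) (T ^ 2) (R11 r) /
    HahnSeries.ofPowerSeries ℤ ℚ (Dr r)

/-- `F_{k,N}`: `(-q^{1/2};q)_∞^N` for `k = 0`, and
`(-q^{1/2};q^{1/2})_∞^N ∑_r q^{Q(r)} / D(r)` for `k ≥ 1` -/
noncomputable def Fser (k N : ℕ) : ℚ⟦X⟧ :=
  if k = 0 then pochInf (-X) (X ^ 2) ^ N
  else pochInf (-X) X ^ N * fsum (fun r : Fin N → Fin k → ℕ => Fterm r)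

/-- `G_{k,N} = (-q;q)_∞^N ∑_r q^{Q(r)} (-q^{1/2-R};q)_R / D(r)`, `R = R_1^{(1)}`, for
`k, N ≥ 1` -/
noncomputable def Gser (k N : ℕ) [NeZero N] [NeZero k] : ℚ⟦X⟧ :=
  pochInf (-X ^ 2) (X ^ 2) ^ N * fsum (fun r : Fin N → Fin k → ℕ => Gterm r)

end MP4905.St
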