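import Pool.Agent.Work.MP_4905b1_co.Bd.B05

/-!
Complements: the summand of `G` as a Laurent series, the meaning of the infinite products, and
the variant of `F` with another exponent.
-/

open Finset

namespace MP4905

open PowerSeries (coeff constantCoeff)

/-- the coefficients of the infinite product are those of all long enough finite products -/
theorem pochInf_spec (a c : PS) (hc : PowerSeries.X ∣ c) (d n : ℕ) (hn : d < n) :
    coeff d (St.pochInf a c) = coeff d (St.poch a c n) :=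
  (rb_eq_iff (d + 1) _ _).mp (rb_pochInf a c hc (d + 1) n hn) d (Nat.lt_succ_self d)

/-! ### the summand of `G` -/

section laurent

variable {K : Type} [Field K]

lemma poch_neg_half (T : K) (hT : T ≠ 0) (R : ℕ) :
    T ^ ((R : ℤ) ^ 2) * St.poch (-T ^ (1 - 2 * (R : ℤ))) (T ^ 2) R = St.poch (-T) (T ^ 2) R := by
  unfold St.poch
  have h1 : T ^ ((R : ℤ) ^ 2) = ∏ j ∈ range R, T ^ (2 * j + 1) := by
    rw [prod_pow_eq_pow_sum]
    have h2 : ∑ j ∈ range R, (2 * j + 1) = R ^ 2 := by
      clear hT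
      induction R with
      | zero => simp
      | succ R ih => rw [sum_range_succ, ih]; ring
    rw [h2, ← zpow_natCast]
    push_cast
    rfl
  rw [h1, ← prod_range_reflect (fun j => T ^ (2 * j + 1)), ← prod_mul_distrib,
    ← prod_range_reflect (fun j => 1 - -T * (T ^ 2) ^ j)]
  apply prod_congr rfl
  intro j hj
  have hj' := mem_range.mp hj
  have e1 : T ^ (1 - 2 * (R : ℤ)) * (T ^ 2) ^ j * T ^ (2 * (R - 1 - j) + 1) = 1 := by
    rw [← pow_mul, ← zpow_natCast, ← zpow_natCast, ← zpow_add₀ hT, ← zpow_add₀ hT]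
    have : (1 - 2 * (R : ℤ)) + ((2 * j : ℕ) : ℤ) + ((2 * (R - 1 - j) + 1 : ℕ) : ℤ) = 0 := by
      omega
    rw [this, zpow_zero]
  have e2 : T * (T ^ 2) ^ (R - 1 - j) = T ^ (2 * (R - 1 - j) + 1) := by
    rw [← pow_mul, ← pow_succ']
  calc T ^ (2 * (R - 1 - j) + 1) * (1 - -T ^ (1 - 2 * (R : ℤ)) * (T ^ 2) ^ j)
      = T ^ (2 * (R - 1 - j) + 1) +
        T ^ (1 - 2 * (R : ℤ)) * (T ^ 2) ^ j * T ^ (2 * (R - 1 - j) + 1) := by ring
    _ = 1 - -T * (T ^ 2) ^ (R - 1 - j) := by rw [e1, ← e2]; ring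

end laurent

lemma poch_map {R S : Type} [CommRing R] [CommRing S] (f : R →+* S) (a c : R) (n : ℕ) :
    f (St.poch a c n) = St.poch (f a) (f c) n := by
  unfold St.poch
  rw [map_prod]
  simp only [map_sub, map_one, map_mul, map_pow]

lemma twoQ_sub_nonneg {N k : ℕ} (r : Fin (N + 1) → Fin (k + 1) → ℕ) :
    0 ≤ St.twoQ r - (St.R11 r : ℤ) ^ 2 := by
  have h1 := twoQ_bound' r 0 0
  by_contra hneg
  push Not at hneg
  have h2 : ((N : ℤ) + 1) * (St.twoQ r - (St.R11 r : ℤ) ^ 2) < 0 :=
    mul_neg_of_pos_of_neg (by omega) hneg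
  omega

theorem Gterm_laurent {N k : ℕ} (r : Fin (N + 1) → Fin (k + 1) → ℕ) :
    HahnSeries.ofPowerSeries ℤ ℚ (St.Gterm r) = St.GtermL r := by
  unfold St.Gterm St.GtermL
  set T : LaurentSeries ℚ := HahnSeries.single 1 1 with hTdef
  have hTX : HahnSeries.ofPowerSeries ℤ ℚ PowerSeries.X = T := HahnSeries.ofPowerSeries_X
  have hT : T ≠ 0 := by
    rw [hTdef]
    exact HahnSeries.single_ne_zero one_ne_zero
  simp only
  rw [map_mul, map_mul, map_pow, poch_map, map_neg, map_pow, hTX]
  have hD : HahnSeries.ofPowerSeries ℤ ℚ (St.Dr r)⁻¹ =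
      (HahnSeries.ofPowerSeries ℤ ℚ (St.Dr r))⁻¹ := by
    have h1 : St.Dr r * (St.Dr r)⁻¹ = 1 := by
      apply PowerSeries.mul_inv_cancel
      rw [Dr_constantCoeff]
      exact one_ne_zero
    have h2 := congrArg (HahnSeries.ofPowerSeries ℤ ℚ) h1
    rw [map_mul, map_one] at h2
    exact eq_inv_of_mul_eq_one_right h2
  rw [hD, ← div_eq_mul_inv, ← poch_neg_half T hT (St.R11 r)]
  congr 1
  rw [← mul_assoc, ← zpow_natCast T, ← zpow_add₀ hT, Int.toNat_of_nonneg (twoQ_sub_nonneg r)]
  congr 2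
  ring

/-! ### the other exponent -/

lemma rb_one_Fsum (N k : ℕ) :
    rb 1 (St.fsum (fun r : Fin N → Fin k → ℕ => St.Fterm r)) = 1 := by
  rw [rb_fsum _ 1 {fun _ _ => 0}]
  · rw [sum_singleton]
    have h1 : St.Fterm (fun (_ : Fin N) (_ : Fin k) => 0) = 1 := by
      unfold St.Fterm St.twoQ St.bigR St.Dr St.poch
      simp
    rw [h1, map_one]
  · intro r hr
    have hne : ∃ a i, 0 < r a i := by
      by_contra hcon
      push Not at hcon
      apply hr
      rw [mem_singleton]
      funext a i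
      have := hcon a i
      omega
    obtain ⟨a, i, hai⟩ := hne
    unfold St.Fterm
    apply rb_X_pow_mul
    have h1 := twoQ_bound r a i
    by_contra hlt
    push Not at hlt
    have h2 : St.twoQ r ≤ 0 := by omega
    have h3 : (N : ℤ) * St.twoQ r ≤ 0 := mul_nonpos_of_nonneg_of_nonpos (by omega) h2
    omega

lemma constantCoeff_of_rb {s : PS} (h : rb 1 s = 1) : constantCoeff s = 1 := by
  rw [← map_one (rb 1), rb_eq_iff] at h
  have := h 0 Nat.zero_lt_one
  simpa using this

lemma coeff_pochInf_zero (c : PS) (hc : PowerSeries.X ∣ c) :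
    constantCoeff (St.pochInf (-PowerSeries.X) c) = 1 := by
  have := pochInf_spec (-PowerSeries.X) c hc 0 1 (by omega)
  rw [PowerSeries.coeff_zero_eq_constantCoeff_apply,
    PowerSeries.coeff_zero_eq_constantCoeff_apply] at this
  rw [this]
  simp [St.poch]

lemma coeff_pochInf_one (c : PS) (hc : PowerSeries.X ∣ c) :
    coeff 1 (St.pochInf (-PowerSeries.X) c) = 1 := by
  rw [pochInf_spec (-PowerSeries.X) c hc 1 2 (by omega)]
  obtain ⟨e, rfl⟩ := hc
  have : St.poch (-PowerSeries.X : PS) (PowerSeries.X * e) 2 =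
      1 + PowerSeries.X + PowerSeries.X ^ 2 * (e * (1 + PowerSeries.X)) := by
    unfold St.poch
    rw [prod_range_succ, prod_range_succ, prod_range_zero]
    ring
  rw [this, map_add, map_add, PowerSeries.coeff_one_X, PowerSeries.coeff_one,
    PowerSeries.coeff_X_pow_mul']
  simp

/-- `F_{k,N}` with the exponent `2N-1` instead of `N` in the prefactor -/
noncomputable def FserLit (k N : ℕ) : PS :=
  if k = 0 then St.pochInf (-PowerSeries.X) (PowerSeries.X ^ 2) ^ (2 * N - 1)
  else St.pochInf (-PowerSeries.X) PowerSeries.X ^ (2 * N - 1) *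
    St.fsum (fun r : Fin N → Fin k → ℕ => St.Fterm r)

theorem Fser_ne_FserLit (k N : ℕ) (hN : 2 ≤ N) : St.Fser k N ≠ FserLit k N := by
  -- both are powers of a series `P` times a series with constant coefficient `1`
  have key : ∀ (P Sg : PS), constantCoeff P = 1 → coeff 1 P = 1 → constantCoeff Sg = 1 →
      P ^ N * Sg ≠ P ^ (2 * N - 1) * Sg := by
    intro P Sg h0 h1 hS heq
    have hSg : Sg ≠ 0 := by
      rintro rfl
      simp at hS
    have h2 := mul_right_cancel₀ hSg heq
    have h3 := congrArg (coeff 1) h2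
    rw [PowerSeries.coeff_one_pow, PowerSeries.coeff_one_pow, h0, h1] at h3
    simp only [one_pow, mul_one] at h3
    have h4 : N = 2 * N - 1 := by exact_mod_cast h3
    omega
  unfold St.Fser FserLit
  by_cases hk : k = 0
  · rw [if_pos hk, if_pos hk]
    have := key (St.pochInf (-PowerSeries.X) (PowerSeries.X ^ 2)) 1
      (coeff_pochInf_zero _ X_dvd_X_sq) (coeff_pochInf_one _ X_dvd_X_sq) (by simp)
    rwa [mul_one, mul_one] at this
  · rw [if_neg hk, if_neg hk]
    exact key _ _ (coeff_pochInf_zero _ (dvd_refl _)) (coeff_pochInf_one _ (dvd_refl _))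
      (constantCoeff_of_rb (rb_one_Fsum N k))

end MP4905
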